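import Mathlib
import Pool.Agent.TH66.HF.Mt
import Pool.Agent.TH66.HF.Hd2

set_option autoImplicit false

namespace Pool.Agent.Results.MP_76589c_co.PrimeFactorsHadamard

open Filter Topology

/-- Some finite group `G` of order `4 w - 1`, which is nilpotent (for instance cyclic) if the
condition `nil` holds, contains a Hadamard difference set: a set `D` of `2 w - 1` elements such that
every `g ≠ 1` has exactly `w - 1` representations `g = a * b⁻¹` with `a, b ∈ D`. (If `nil` is false,
`G` is an arbitrary finite group.) -/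
def HasHadamardDifferenceSet (nil : Prop) (w : ℕ) : Prop :=
  ∃ (G : Type) (_ : Group G) (_ : Fintype G) (_ : DecidableEq G) (D : Finset G),
    (nil → Group.IsNilpotent G) ∧ Fintype.card G = 4 * w - 1 ∧ D.card = 2 * w - 1 ∧
    ∀ g : G, g ≠ 1 → ((D ×ˢ D).filter (fun p : G × G => p.1 * p.2⁻¹ = g)).card = w - 1

/-- Let `j ≥ 1`. Among the integers `w ≤ X` with exactly `j` prime factors (counted with
multiplicity; for `j = 1`: among the primes), the proportion of those for which
* some finite group contains a `(4 w - 1, 2 w - 1, w - 1)` difference set, or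
* some finite nilpotent (for instance cyclic) group contains a
  `(4 w ^ 2 - 1, 2 w ^ 2 - 1, w ^ 2 - 1)` difference set,
tends to `0` as `X → ∞`. -/
theorem result (j : ℕ) (hj : 1 ≤ j) :
    Tendsto (fun X : ℕ =>
      ({w : ℕ | w ≤ X ∧ w.primeFactorsList.length = j ∧
          (HasHadamardDifferenceSet False w ∨ HasHadamardDifferenceSet True (w ^ 2))}.ncard : ℝ) /
        ({w : ℕ | w ≤ X ∧ w.primeFactorsList.length = j}.ncard : ℝ)) atTop (𝓝 0) := by
  have h1 := Pool.Agent.TH66.HF.main4 j hj
  have h2 := Pool.Agent.TH66.HF.main5 j hj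
  have h3 := h1.add h2
  rw [add_zero] at h3
  refine squeeze_zero (fun X => by positivity) (fun X => ?_) h3
  rw [← add_div]
  apply div_le_div_of_nonneg_right _ (Nat.cast_nonneg _)
  have hfin : ∀ P : ℕ → Prop, ({N : ℕ | N ≤ X ∧ N.primeFactorsList.length = j ∧ P N} : Set ℕ).Finite :=
    fun P => (Set.finite_Iic X).subset fun N hN => hN.1
  have hsub : ({w : ℕ | w ≤ X ∧ w.primeFactorsList.length = j ∧
          (HasHadamardDifferenceSet False w ∨ HasHadamardDifferenceSet True (w ^ 2))} : Set ℕ) ⊆
      {N : ℕ | N ≤ X ∧ N.primeFactorsList.length = j ∧ Pool.Agent.TH66.HF.HasHad N} ∪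
      {N : ℕ | N ≤ X ∧ N.primeFactorsList.length = j ∧ Pool.Agent.TH66.HF.HasHadNil (N ^ 2)} := by
    rintro N ⟨hN, hl, h⟩
    have hN2 : 2 ≤ N := by
      rcases N with _ | _ | N
      · simp at hl
        omega
      · simp at hl
        omega
      · omega
    have hN2' : 2 ≤ N ^ 2 := by nlinarith
    rcases h with h | h
    · left
      obtain ⟨G, i1, i2, i3, D, -, -, h5, h6⟩ := h
      exact ⟨hN, hl, hN2, Or.inr ⟨G, i1, i2, i3, D, h5, h6⟩⟩
    · right
      obtain ⟨G, i1, i2, i3, D, h4, -, h5, h6⟩ := h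
      exact ⟨hN, hl, hN2', G, i1, i2, i3, D, h4 trivial, h5, h6⟩
  have h4 := (Set.ncard_le_ncard hsub ((hfin _).union (hfin _))).trans (Set.ncard_union_le _ _)
  exact_mod_cast h4

end Pool.Agent.Results.MP_76589c_co.PrimeFactorsHadamard
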